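import Pool.Agent.Lib.MP_3d78c5_nt.Main

set_option autoImplicit false

namespace Pool.Agent.Results.MP_3d78c5_nt.ManyTwists

open Pool.Agent.Lib.MP_3d78c5_nt

/-- At least `κ F^(2/3) / log F` twists of `θ` by characters of prime conductor `F` satisfy the
hypotheses of the problem and have a trivial eigenspace. -/
theorem result :
    ∀ (p N : ℕ) [Fact p.Prime], 5 ≤ p → 0 < N → ¬ p ∣ N → ¬ p ∣ Nat.totient N →
      ∃ κ : ℝ, 0 < κ ∧ ∃ F₀ : ℕ, ∀ θ : DirichletCharacter (PadicAlgCl p) (N * p), θ.IsPrimitive →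
        ∀ F : ℕ, F.Prime → F₀ ≤ F → ¬ p ∣ F - 1 →
          κ * (F : ℝ) ^ (2 / 3 : ℝ) / Real.log F ≤
            Nat.card {χ : DirichletCharacter (PadicAlgCl p) (N * F * p) //
              (∃ ψ : DirichletCharacter (PadicAlgCl p) F, ∀ n : ℕ, χ n = θ n * ψ n) ∧
                Hyp χ ∧ Subsingleton (Xθ χ)} :=
  fun p N _ hp hN n1 n2 => main p N hp hN n1 n2

end Pool.Agent.Results.MP_3d78c5_nt.ManyTwists
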